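import Pool.Agent.TH703.CI.Main

set_option autoImplicit false

namespace Pool.Agent.TH703.CI
open Finset
open scoped Pointwise

/-- the projection `ℤ² → ℤ/a × ℤ/b` -/
def phi (a b : ℕ) : ℤ × ℤ →+ ZMod a × ZMod b :=
  AddMonoidHom.prodMap (Int.castAddHom (ZMod a)) (Int.castAddHom (ZMod b))

theorem phi_apply (a b : ℕ) (z : ℤ × ℤ) : phi a b z = ((z.1 : ZMod a), (z.2 : ZMod b)) := rfl

theorem phi_surj (a b : ℕ) : Function.Surjective (phi a b) := by
  rintro ⟨u, v⟩
  obtain ⟨u', rfl⟩ := ZMod.intCast_surjective u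
  obtain ⟨v', rfl⟩ := ZMod.intCast_surjective v
  exact ⟨(u', v'), rfl⟩

/-- core bound: `W` contains the corners of `[0,a]×[0,b]` and generates. -/
theorem core (a b t : ℕ) (ha : 0 < a) (hb : 0 < b) (ht : 26 * (a * b) ^ 3 ≤ t)
    (W : Finset (ℤ × ℤ)) (hgen : AddSubgroup.closure (W : Set (ℤ × ℤ)) = ⊤)
    (h00 : (0, 0) ∈ W) (h10 : ((a : ℤ), 0) ∈ W) (h01 : (0, (b : ℤ)) ∈ W) (h11 : ((a : ℤ), (b : ℤ)) ∈ W)
    (A : Finset (ℤ × ℤ)) (hA : A.card = (t * a + 1) * (t * b + 1)) :
    ((t + 1) * a + 1) * ((t + 1) * b + 1) ≤ (A + W).card := by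
  classical
  haveI : NeZero a := ⟨ha.ne'⟩
  haveI : NeZero b := ⟨hb.ne'⟩
  set f : ZMod a × ZMod b → ℕ := fun k => (A.filter (fun z => phi a b z = k)).card with hf
  set F : ZMod a × ZMod b → ℕ := fun k => ((A + W).filter (fun z => phi a b z = k)).card with hFd
  have hsf : ∑ k, f k = A.card := by
    rw [card_eq_sum_card_fiberwise (f := phi a b) (t := univ) (fun _ _ => mem_univ _)]
  have hsF : ∑ k, F k = (A + W).card := by
    rw [card_eq_sum_card_fiberwise (f := phi a b) (t := univ) (fun _ _ => mem_univ _)]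
  have hshift : ∀ k, ∀ w ∈ (phi a b) '' (W : Set (ℤ × ℤ)), f (k - w) ≤ F k := by
    rintro k _ ⟨w, hw, rfl⟩
    refine card_le_card_of_injOn (fun z => z + w) ?_ (fun x _ y _ h => by simpa using h)
    intro z hz
    simp only [coe_filter, Set.mem_setOf_eq] at hz ⊢
    refine ⟨add_mem_add hz.1 (by exact_mod_cast hw), ?_⟩
    rw [map_add, hz.2, sub_add_cancel]
  have hgen2 : AddSubgroup.closure ((phi a b) '' (W : Set (ℤ × ℤ))) = ⊤ := by
    rw [← AddMonoidHom.map_closure, hgen]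
    exact AddSubgroup.map_top_of_surjective _ (phi_surj a b)
  rw [← hsF]
  refine analytic f F a b t ha hb ?_ ht (by rw [hsf, hA]) ?_ ?_ ?_
  · simp
  · intro k
    have := hshift k 0 ⟨(0, 0), by exact_mod_cast h00, by simp [phi_apply]⟩
    simpa using this
  · intro k hk
    have hne : (A.filter (fun z => phi a b z = k)).Nonempty := card_pos.mp hk
    refine boxgain _ _ hne a b (by exact_mod_cast ha) (by exact_mod_cast hb) ?_ ?_ ?_ ?_
    · intro z hz
      rw [mem_filter] at hz ⊢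
      refine ⟨?_, hz.2⟩
      have h := add_mem_add hz.1 h00
      have e : z + ((0 : ℤ), (0 : ℤ)) = z := by ext <;> simp
      rw [e] at h
      exact h
    · intro z hz
      rw [mem_filter] at hz ⊢
      refine ⟨add_mem_add hz.1 h10, ?_⟩
      rw [map_add, hz.2]; simp [phi_apply]
    · intro z hz
      rw [mem_filter] at hz ⊢
      refine ⟨add_mem_add hz.1 h01, ?_⟩
      rw [map_add, hz.2]; simp [phi_apply]
    · intro z hz
      rw [mem_filter] at hz ⊢
      refine ⟨add_mem_add hz.1 h11, ?_⟩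
      rw [map_add, hz.2]; simp [phi_apply]
  · exact fun x y => layer _ hgen2 f F hshift x y

/-- core bound for a translated `W`. -/
theorem core' (p q : ℤ) (a b t : ℕ) (ha : 0 < a) (hb : 0 < b) (ht : 26 * (a * b) ^ 3 ≤ t)
    (U : Finset (ℤ × ℤ)) (hgen : AddSubgroup.closure (U : Set (ℤ × ℤ)) = ⊤) (h0 : (0 : ℤ × ℤ) ∈ U)
    (h00 : (p, q) ∈ U) (h10 : (p + a, q) ∈ U) (h01 : (p, q + b) ∈ U) (h11 : (p + a, q + b) ∈ U)
    (A : Finset (ℤ × ℤ)) (hA : A.card = (t * a + 1) * (t * b + 1)) :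
    ((t + 1) * a + 1) * ((t + 1) * b + 1) ≤ (A + U).card := by
  classical
  set W : Finset (ℤ × ℤ) := U.image (fun z => z - (p, q)) with hW
  have hcard : (A + W).card = (A + U).card := by
    have : A + W = (A + U).image (fun z => z - (p, q)) := by
      ext z
      simp only [hW, mem_add, mem_image]
      constructor
      · rintro ⟨x, hx, _, ⟨y, hy, rfl⟩, rfl⟩
        exact ⟨x + y, ⟨x, hx, y, hy, rfl⟩, by abel⟩
      · rintro ⟨_, ⟨x, hx, y, hy, rfl⟩, rfl⟩
        exact ⟨x, hx, y - (p, q), ⟨y, hy, rfl⟩, by abel⟩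
    rw [this, card_image_of_injective _ (sub_left_injective)]
  rw [← hcard]
  have hmem : ∀ z ∈ U, z - (p, q) ∈ W := fun z hz => mem_image_of_mem _ hz
  refine core a b t ha hb ht W ?_ ?_ ?_ ?_ ?_ A hA
  · rw [eq_top_iff, ← hgen, AddSubgroup.closure_le]
    intro z hz
    have h1 : z - (p, q) ∈ AddSubgroup.closure (W : Set (ℤ × ℤ)) :=
      AddSubgroup.subset_closure (by exact_mod_cast hmem z (by exact_mod_cast hz))
    have h2 : (0 : ℤ × ℤ) - (p, q) ∈ AddSubgroup.closure (W : Set (ℤ × ℤ)) :=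
      AddSubgroup.subset_closure (by exact_mod_cast hmem 0 h0)
    have h3 := AddSubgroup.sub_mem _ h1 h2
    have h4 : z - (p, q) - (0 - (p, q)) = z := by abel
    rw [h4] at h3
    exact h3
  · have h := hmem _ h00
    rw [sub_self] at h
    exact h
  · simpa using hmem _ h10
  · simpa using hmem _ h01
  · simpa using hmem _ h11

end Pool.Agent.TH703.CI
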