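import Mathlib

set_option autoImplicit false

namespace Pool.Agent.TH703.CI
open Finset
open scoped Pointwise

/-- layering lemma -/
theorem layer {G : Type*} [AddCommGroup G] [Fintype G] [DecidableEq G] (W : Set G)
    (hW : AddSubgroup.closure W = ⊤) (f F : G → ℕ)
    (hF : ∀ k, ∀ w ∈ W, f (k - w) ≤ F k) (x y : G) :
    f x - f y ≤ ∑ k, (F k - f k) := by
  classical
  have h1 : Ioc (f y) (f x) ⊆ (univ : Finset G).biUnion (fun k => Ioc (f k) (F k)) := by
    intro s hs
    rw [mem_Ioc] at hs
    by_contra hcon
    simp only [mem_biUnion, mem_univ, true_and, mem_Ioc, not_exists, not_and, not_le] at hcon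
    set X : Finset G := univ.filter (fun k => s ≤ f k) with hX
    have hX1 : ∀ w ∈ W, ∀ k ∈ X, k + w ∈ X := by
      intro w hw k hk
      simp only [hX, mem_filter, mem_univ, true_and] at hk ⊢
      by_contra hlt
      push Not at hlt
      have h2 := hcon (k + w) hlt
      have h3 := hF (k + w) w hw
      rw [add_sub_cancel_right] at h3
      omega
    have hX2 : ∀ g ∈ AddSubgroup.closure W, ∀ k ∈ X, k + g ∈ X := by
      intro g hg
      induction hg using AddSubgroup.closure_induction with
      | mem w hw => exact hX1 w hw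
      | zero => intro k hk; simpa using hk
      | add u v _ _ hu hv => intro k hk; rw [← add_assoc]; exact hv _ (hu _ hk)
      | neg u _ hu =>
        intro k hk
        have himg : X.image (fun k => k + u) ⊆ X := by
          intro z hz
          rw [mem_image] at hz
          obtain ⟨k', hk', rfl⟩ := hz
          exact hu _ hk'
        have hcard : (X.image (fun k => k + u)).card = X.card :=
          card_image_of_injective _ (add_left_injective u)
        have heq := eq_of_subset_of_card_le himg (le_of_eq hcard.symm)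
        rw [← heq, mem_image] at hk
        obtain ⟨k', hk', rfl⟩ := hk
        simpa using hk'
    have h4 : x ∈ X := by simp [hX, hs.2]
    have h5 := hX2 (y - x) (by rw [hW]; trivial) x h4
    simp only [hX, mem_filter, mem_univ, true_and, add_sub_cancel] at h5
    omega
  calc f x - f y = (Ioc (f y) (f x)).card := by simp
    _ ≤ _ := card_le_card h1
    _ ≤ ∑ k, (Ioc (f k) (F k)).card := card_biUnion_le
    _ = ∑ k, (F k - f k) := by simp

theorem rowgain (T : Finset (ℤ × ℤ)) (a : ℤ) (ha : 0 < a) :
    T.card + (T.image Prod.snd).card ≤ (T ∪ T.image (fun z => z + (a, 0))).card := by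
  classical
  have h : (T.image Prod.snd).card ≤ ((T.image (fun z => z + (a, 0))) \ T).card := by
    refine le_trans (card_le_card ?_) (card_image_le (f := Prod.snd))
    intro y hy
    rw [mem_image] at hy
    obtain ⟨z, hz, rfl⟩ := hy
    obtain ⟨m, hm, hmax⟩ := exists_max_image (T.filter (fun w => w.2 = z.2)) (fun w => w.1) ⟨z, by simp [hz]⟩
    rw [mem_filter] at hm
    rw [mem_image]
    refine ⟨m + (a, 0), ?_, by simp [hm.2]⟩
    rw [mem_sdiff]
    refine ⟨mem_image_of_mem _ hm.1, ?_⟩
    intro hin
    have := hmax (m + (a, 0)) (by simp [hin, hm.2])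
    simp at this
    omega
  have h2 : (T ∪ T.image (fun z => z + (a, 0))).card = T.card + ((T.image (fun z => z + (a, 0))) \ T).card := by
    rw [← card_union_of_disjoint disjoint_sdiff, union_sdiff_self_eq_union]
  omega

theorem colgain (T : Finset (ℤ × ℤ)) (b : ℤ) (hb : 0 < b) :
    T.card + (T.image Prod.fst).card ≤ (T ∪ T.image (fun z => z + (0, b))).card := by
  classical
  have h : (T.image Prod.fst).card ≤ ((T.image (fun z => z + (0, b))) \ T).card := by
    refine le_trans (card_le_card ?_) (card_image_le (f := Prod.fst))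
    intro y hy
    rw [mem_image] at hy
    obtain ⟨z, hz, rfl⟩ := hy
    obtain ⟨m, hm, hmax⟩ := exists_max_image (T.filter (fun w => w.1 = z.1)) (fun w => w.2) ⟨z, by simp [hz]⟩
    rw [mem_filter] at hm
    rw [mem_image]
    refine ⟨m + (0, b), ?_, by simp [hm.2]⟩
    rw [mem_sdiff]
    refine ⟨mem_image_of_mem _ hm.1, ?_⟩
    intro hin
    have := hmax (m + (0, b)) (by simp [hin, hm.2])
    simp at this
    omega
  have h2 : (T ∪ T.image (fun z => z + (0, b))).card = T.card + ((T.image (fun z => z + (0, b))) \ T).card := by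
    rw [← card_union_of_disjoint disjoint_sdiff, union_sdiff_self_eq_union]
  omega

theorem boxgain (T D : Finset (ℤ × ℤ)) (hT : T.Nonempty) (a b : ℤ) (ha : 0 < a) (hb : 0 < b)
    (h00 : ∀ z ∈ T, z ∈ D) (h10 : ∀ z ∈ T, z + (a, 0) ∈ D) (h01 : ∀ z ∈ T, z + (0, b) ∈ D)
    (h11 : ∀ z ∈ T, z + (a, b) ∈ D) :
    (Real.sqrt T.card + 1) ^ 2 ≤ (D.card : ℝ) := by
  classical
  set T' := T ∪ T.image (fun z => z + (a, 0)) with hT'
  have h1 := rowgain T a ha
  rw [← hT'] at h1
  have h2 := colgain T' b hb
  have h3 : (T.image Prod.fst).card + 1 ≤ (T'.image Prod.fst).card := by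
    obtain ⟨m, hm, hmax⟩ := exists_max_image T (fun w => w.1) hT
    have hsub : insert (m.1 + a) (T.image Prod.fst) ⊆ T'.image Prod.fst := by
      intro y hy
      rw [mem_insert] at hy
      rcases hy with rfl | hy
      · rw [mem_image]
        exact ⟨m + (a, 0), by rw [hT', mem_union]; right; exact mem_image_of_mem _ hm, by simp⟩
      · rw [mem_image] at hy ⊢
        obtain ⟨z, hz, rfl⟩ := hy
        exact ⟨z, by rw [hT', mem_union]; left; exact hz, rfl⟩
    have hnot : m.1 + a ∉ T.image Prod.fst := by
      intro h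
      rw [mem_image] at h
      obtain ⟨z, hz, hz2⟩ := h
      have := hmax z hz
      change z.1 ≤ m.1 at this
      omega
    calc _ = (insert (m.1 + a) (T.image Prod.fst)).card := by rw [card_insert_of_notMem hnot]
      _ ≤ _ := card_le_card hsub
  have h4 : T' ∪ T'.image (fun z => z + (0, b)) ⊆ D := by
    intro z hz
    rw [mem_union] at hz
    rcases hz with hz | hz
    · rw [hT', mem_union] at hz
      rcases hz with hz | hz
      · exact h00 z hz
      · rw [mem_image] at hz
        obtain ⟨w, hw, rfl⟩ := hz
        exact h10 w hw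
    · rw [mem_image] at hz
      obtain ⟨w, hw, rfl⟩ := hz
      rw [hT', mem_union] at hw
      rcases hw with hw | hw
      · exact h01 w hw
      · rw [mem_image] at hw
        obtain ⟨v, hv, rfl⟩ := hw
        have : v + (a, 0) + (0, b) = v + (a, b) := by ext <;> simp
        rw [this]; exact h11 v hv
  have h5 := card_le_card h4
  have h6 : T.card ≤ (T.image Prod.fst).card * (T.image Prod.snd).card := by
    rw [← card_product]
    apply card_le_card
    intro z hz
    rw [mem_product]
    exact ⟨mem_image_of_mem _ hz, mem_image_of_mem _ hz⟩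
  have h7 : T.card + (T.image Prod.snd).card + (T.image Prod.fst).card + 1 ≤ D.card := by omega
  have h6' : (T.card : ℝ) ≤ ((T.image Prod.fst).card : ℝ) * ((T.image Prod.snd).card : ℝ) := by exact_mod_cast h6
  have h7' : (T.card : ℝ) + ((T.image Prod.snd).card : ℝ) + ((T.image Prod.fst).card : ℝ) + 1 ≤ (D.card : ℝ) := by
    exact_mod_cast h7
  set r : ℝ := ((T.image Prod.fst).card : ℝ)
  set m : ℝ := ((T.image Prod.snd).card : ℝ)
  have hr : 0 ≤ r := by positivity
  have hm : 0 ≤ m := by positivity
  have h8 : 2 * Real.sqrt T.card ≤ r + m := by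
    have : Real.sqrt T.card ≤ (r + m) / 2 := by
      apply Real.sqrt_le_iff.mpr
      constructor
      · positivity
      · nlinarith [sq_nonneg (r - m)]
    linarith
  have h9 : Real.sqrt T.card ^ 2 = T.card := Real.sq_sqrt (by positivity)
  nlinarith

end Pool.Agent.TH703.CI
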