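import Pool.Agent.TH703.CI.Core

set_option autoImplicit false

namespace Pool.Agent.TH703.CI
open Finset
open scoped Pointwise

/-- analytic part -/
theorem analytic {G : Type*} [Fintype G] [Nonempty G] (f F : G → ℕ) (a b t : ℕ) (ha : 0 < a) (hb : 0 < b)
    (hV : Fintype.card G = a * b) (ht : 26 * (a * b) ^ 3 ≤ t)
    (hn : ∑ k, f k = (t * a + 1) * (t * b + 1))
    (hle : ∀ k, f k ≤ F k)
    (hF : ∀ k, 0 < f k → (Real.sqrt (f k) + 1) ^ 2 ≤ (F k : ℝ))
    (hlay : ∀ x y, f x - f y ≤ ∑ k, (F k - f k)) :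
    ((t + 1) * a + 1) * ((t + 1) * b + 1) ≤ ∑ k, F k := by
  classical
  by_contra hcon
  push Not at hcon
  have hsumsub : ∑ k, (F k - f k) + ∑ k, f k = ∑ k, F k := by
    rw [← sum_add_distrib]
    exact sum_congr rfl (fun k _ => Nat.sub_add_cancel (hle k))
  set V : ℕ := a * b with hVdef
  have hVpos : 1 ≤ V := Nat.mul_pos ha hb
  have haV : a ≤ V := Nat.le_mul_of_pos_right a hb
  have hbV : b ≤ V := Nat.le_mul_of_pos_left b ha
  have ht1 : 26 * V ≤ t := by
    have : V ≤ V ^ 3 := Nat.le_self_pow (by norm_num) V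
    omega
  have hE : ∀ x y, (f x : ℝ) - f y ≤ 5 * V * t := by
    intro x y
    have h1 := hlay x y
    have h2 : ∑ k, (F k - f k) + (t * a + 1) * (t * b + 1) + 1 ≤ ((t + 1) * a + 1) * ((t + 1) * b + 1) := by
      rw [hn] at hsumsub; omega
    have h3 : ((t + 1) * a + 1) * ((t + 1) * b + 1) = (t * a + 1) * (t * b + 1) + (2 * V * t + a + b + V) := by
      rw [hVdef]; ring
    have h4 : ∑ k, (F k - f k) ≤ 2 * V * t + a + b + V := by omega
    have h5 : a + b + V ≤ 3 * V * t := by nlinarith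
    have h6 : f x - f y ≤ 5 * V * t := by
      calc _ ≤ _ := h1
        _ ≤ _ := h4
        _ ≤ 5 * V * t := by linarith
    have h7 : f x ≤ 5 * V * t + f y := by omega
    have h8 : (f x : ℝ) ≤ 5 * V * t + f y := by exact_mod_cast h7
    linarith
  obtain ⟨x0, -, hx0⟩ := exists_max_image (univ : Finset G) f univ_nonempty
  have hbig : t ^ 2 ≤ f x0 := by
    have h1 : ∑ k, f k ≤ V * f x0 := by
      calc ∑ k, f k ≤ ∑ _k : G, f x0 := sum_le_sum (fun k _ => hx0 k (mem_univ k))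
        _ = V * f x0 := by rw [sum_const, card_univ, hV, smul_eq_mul]
    rw [hn] at h1
    have h2 : V * t ^ 2 ≤ (t * a + 1) * (t * b + 1) := by
      have : (t * a + 1) * (t * b + 1) = V * t ^ 2 + t * a + t * b + 1 := by rw [hVdef]; ring
      omega
    exact Nat.le_of_mul_le_mul_left (h2.trans h1) hVpos
  have hbigR : (t : ℝ) ^ 2 ≤ f x0 := by exact_mod_cast hbig
  have htR : (26 : ℝ) * V ≤ t := by exact_mod_cast ht1
  have hVR : (1 : ℝ) ≤ V := by exact_mod_cast hVpos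
  have htpos : (0 : ℝ) < t := by linarith
  have hall : ∀ y, ((t : ℝ) / 2) ^ 2 ≤ f y := by
    intro y
    have := hE x0 y
    nlinarith
  have hsq : ∀ y, (t : ℝ) / 2 ≤ Real.sqrt (f y) := by
    intro y
    exact Real.le_sqrt_of_sq_le (hall y)
  have hss : ∀ y, Real.sqrt (f y) ^ 2 = f y := fun y => Real.sq_sqrt (by positivity)
  have hD1 : ∀ x y, Real.sqrt (f x) - Real.sqrt (f y) ≤ 5 * V := by
    intro x y
    by_contra hc
    push Not at hc
    have h1 := hE x y
    have h2 := hsq x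
    have h3 := hsq y
    have h4 : (f x : ℝ) - f y = (Real.sqrt (f x) - Real.sqrt (f y)) * (Real.sqrt (f x) + Real.sqrt (f y)) := by
      rw [← hss x, ← hss y]; ring_nf; rw [Real.sqrt_sq (Real.sqrt_nonneg _), Real.sqrt_sq (Real.sqrt_nonneg _)]
    have h5 : 5 * (V : ℝ) * t < (Real.sqrt (f x) - Real.sqrt (f y)) * (Real.sqrt (f x) + Real.sqrt (f y)) := by
      calc 5 * (V : ℝ) * t < (Real.sqrt (f x) - Real.sqrt (f y)) * t := by
            exact mul_lt_mul_of_pos_right hc htpos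
        _ ≤ _ := by
            apply mul_le_mul_of_nonneg_left _ (by linarith)
            linarith
    linarith
  have hpos : ∀ y, 0 < f y := by
    intro y
    have h1 := hall y
    have h2 : (0 : ℝ) < f y := by
      have : (0:ℝ) < (t / 2) ^ 2 := by positivity
      linarith
    exact_mod_cast h2
  set X : ℝ := ∑ k, Real.sqrt (f k) with hX
  have hnR : ∑ k, (f k : ℝ) = (t * a + 1) * (t * b + 1) := by exact_mod_cast hn
  have hcV : (Fintype.card G : ℝ) = V := by exact_mod_cast hV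
  have hsumF : ∑ k, (f k : ℝ) + 2 * X + V ≤ ∑ k, (F k : ℝ) := by
    calc ∑ k, (f k : ℝ) + 2 * X + V = ∑ k, (Real.sqrt (f k) + 1) ^ 2 := by
          have : ∀ k, (Real.sqrt (f k) + 1) ^ 2 = (f k : ℝ) + 2 * Real.sqrt (f k) + 1 := by
            intro k
            have := hss k
            linear_combination this
          simp_rw [this]
          rw [sum_add_distrib, sum_add_distrib, ← mul_sum, sum_const, card_univ, nsmul_eq_mul, mul_one, hcV]
      _ ≤ _ := sum_le_sum (fun k _ => hF k (hpos k))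
  have hcon2 : ∑ k, (F k : ℝ) + 1 ≤ ((t + 1) * a + 1) * ((t + 1) * b + 1) := by
    have : ∑ k, F k + 1 ≤ ((t + 1) * a + 1) * ((t + 1) * b + 1) := hcon
    exact_mod_cast this
  have hVR2 : (V : ℝ) = a * b := by rw [hVdef]; push_cast; ring
  set Z : ℝ := 2 * V * t + a + b with hZ
  have hXZ : 2 * X ≤ Z - 1 := by
    rw [hnR] at hsumF
    have : ((t + 1) * a + 1) * ((t + 1) * b + 1) = ((t:ℝ) * a + 1) * (t * b + 1) + (2 * V * t + a + b + V) := by
      rw [hVR2]; ring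
    rw [this] at hcon2
    rw [hZ]
    linarith
  have hX0 : 0 ≤ X := sum_nonneg (fun k _ => Real.sqrt_nonneg _)
  set c : ℝ := Real.sqrt (f x0) with hc
  have hvar : ∑ k, (Real.sqrt (f k) - c) ^ 2 ≤ V * (5 * V) ^ 2 := by
    have h1 := Finset.sum_le_card_nsmul (univ : Finset G) (fun k => (Real.sqrt (f k) - c) ^ 2) ((5 * (V:ℝ)) ^ 2) (by
      intro k _
      apply sq_le_sq'
      · have := hD1 x0 k; rw [← hc] at this; linarith
      · exact hD1 k x0)
    rw [card_univ, nsmul_eq_mul, hcV] at h1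
    exact h1
  have hvar2 : ∑ k, (Real.sqrt (f k) - c) ^ 2 = ∑ k, (f k : ℝ) - 2 * c * X + V * c ^ 2 := by
    have : ∀ k, (Real.sqrt (f k) - c) ^ 2 = (f k : ℝ) - 2 * c * Real.sqrt (f k) + c ^ 2 := by
      intro k
      have := hss k
      linear_combination this
    simp_rw [this]
    rw [sum_add_distrib, sum_sub_distrib, ← mul_sum, sum_const, card_univ, nsmul_eq_mul, hcV]
  rw [hvar2, hnR] at hvar
  have hmain : 4 * (V : ℝ) * (((t:ℝ) * a + 1) * (t * b + 1)) ≤ 100 * V ^ 4 + 4 * X ^ 2 := by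
    have h1 : 2 * c * X - V * c ^ 2 ≤ X ^ 2 / V := by
      rw [le_div_iff₀ (by linarith)]
      nlinarith [sq_nonneg (X - V * c)]
    have h2 : (((t:ℝ) * a + 1) * (t * b + 1)) ≤ V * (5 * V) ^ 2 + X ^ 2 / V := by linarith
    have h3 : 4 * (V : ℝ) * (((t:ℝ) * a + 1) * (t * b + 1)) ≤ 4 * V * (V * (5 * V) ^ 2 + X ^ 2 / V) :=
      mul_le_mul_of_nonneg_left h2 (by positivity)
    have h4 : 4 * (V:ℝ) * (V * (5 * V) ^ 2 + X ^ 2 / V) = 100 * V ^ 4 + 4 * X ^ 2 := by
      field_simp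
      ring
    linarith
  have hid : 4 * (V : ℝ) * (((t:ℝ) * a + 1) * (t * b + 1)) = Z ^ 2 - (a - b) ^ 2 := by
    rw [hZ, hVR2]; ring
  have h4X : 4 * X ^ 2 ≤ (Z - 1) ^ 2 := by
    have : (2 * X) ^ 2 ≤ (Z - 1) ^ 2 := pow_le_pow_left₀ (by linarith) hXZ 2
    linarith
  have haR : (a : ℝ) ≤ V := by exact_mod_cast haV
  have hbR : (b : ℝ) ≤ V := by exact_mod_cast hbV
  have ha0 : (0 : ℝ) ≤ a := by positivity
  have hb0 : (0 : ℝ) ≤ b := by positivity
  have hab : ((a : ℝ) - b) ^ 2 ≤ V ^ 2 := by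
    apply sq_le_sq'
    · linarith
    · linarith
  have hfin : 2 * Z - 1 ≤ 100 * V ^ 4 + V ^ 2 := by
    rw [hid] at hmain
    have e1 : (Z - 1) ^ 2 = Z ^ 2 - 2 * Z + 1 := by ring
    linarith
  have htV : (26 : ℝ) * V ^ 3 ≤ t := by exact_mod_cast ht
  have hZ2 : 104 * (V : ℝ) ^ 4 ≤ 2 * Z := by
    have : (V:ℝ) * (26 * V ^ 3) ≤ V * t := mul_le_mul_of_nonneg_left htV (by linarith)
    rw [hZ]
    linarith
  have hV24 : (V : ℝ) ^ 2 ≤ V ^ 4 := pow_le_pow_right₀ hVR (by norm_num)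
  have hV04 : (1 : ℝ) ≤ V ^ 4 := one_le_pow₀ hVR
  linarith

end Pool.Agent.TH703.CI
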